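import Mathlib

set_option autoImplicit false

/-!
# The fractional walk-nonrepetitive chromatic number of paths

`3` for the paths on `3`, `4`, `5` vertices and `4` for every path on at least `6` vertices.
-/

namespace Pool.Agent.Results.MP_c566a2_co.WalkPath

open Finset

/-- `c` is a `p`-tuple walk-nonrepetitive `q`-colouring of `G`: every `c v` is a set of `p` colours
among `q`, and for every walk `w 0, …, w (2l-1)` (`l ≥ 1`) that is not boring and every choice of
colours `a i ∈ c (w i)`, the sequence `a` is not a repetition. -/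
def IsTupleColouring {V : Type} (G : SimpleGraph V) (p q : ℕ) (c : V → Finset (Fin q)) : Prop :=
  (∀ v, (c v).card = p) ∧
  ∀ (l : ℕ), 1 ≤ l → ∀ w : Fin (2 * l) → V,
    (∀ i j : Fin (2 * l), (i : ℕ) + 1 = j → G.Adj (w i) (w j)) →
    (∃ i j : Fin (2 * l), (i : ℕ) + l = j ∧ w i ≠ w j) →
    ∀ a : Fin (2 * l) → Fin q, (∀ i, a i ∈ c (w i)) →
      ∃ i j : Fin (2 * l), (i : ℕ) + l = j ∧ a i ≠ a j

/-- the fractional walk-nonrepetitive chromatic number -/
noncomputable def piFW {V : Type} (G : SimpleGraph V) : ℝ :=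
  sInf {x : ℝ | ∃ p q : ℕ, 1 ≤ p ∧ p < q ∧ x = (q : ℝ) / p ∧
    ∃ c : V → Finset (Fin q), IsTupleColouring G p q c}

/-! ### The combinatorial core -/

theorem attained (w : ℕ → ℤ) (l : ℕ) (h : ∀ i < l, |w (i + 1) - w i| ≤ 1) (v : ℤ)
    (h0 : w 0 ≤ v) (h1 : v ≤ w l) : ∃ i ≤ l, w i = v := by
  induction l with
  | zero => exact ⟨0, le_rfl, le_antisymm h0 h1⟩
  | succ l ih =>
    by_cases hv : v ≤ w l
    · obtain ⟨i, hi, hw⟩ := ih (fun i hi => h i (by omega)) hv
      exact ⟨i, by omega, hw⟩
    · have := abs_le.1 (h l (by omega))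
      exact ⟨l + 1, le_rfl, by omega⟩

/-- one orientation of the main lemma -/
theorem core_pos (f : ℤ → ℕ) (n : ℤ) (h1 : ∀ x, 0 ≤ x → f x ≠ f (x + 1))
    (h2 : ∀ x, 0 ≤ x → f x ≠ f (x + 2))
    (hsq : ∀ (a : ℤ) (m : ℕ), 1 ≤ m → 0 ≤ a → a + 2 * m ≤ n →
      ∃ j : ℕ, j < m ∧ f (a + j) ≠ f (a + m + j))
    (l : ℕ) (hl : 1 ≤ l) (w : ℕ → ℤ) (hw : ∀ i, i + 1 < 2 * l → |w (i + 1) - w i| = 1)
    (hb : ∀ i, i < 2 * l → 0 ≤ w i ∧ w i < n)
    (hrep : ∀ i, i < l → f (w i) = f (w (l + i))) (hpos : ∀ i, i < l → w i < w (l + i)) : False := by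
  have far : ∀ x y : ℤ, 0 ≤ x → f x = f y → x < y → x + 3 ≤ y := by
    intro x y hx0 hxy hlt
    by_contra hcon
    rcases (by omega : y = x + 1 ∨ y = x + 2) with rfl | rfl
    · exact h1 x hx0 hxy
    · exact h2 x hx0 hxy
  have step : ∀ i, i + 1 < 2 * l → w (i + 1) = w i + 1 ∨ w (i + 1) = w i - 1 := by
    intro i hi
    rcases (abs_eq (by norm_num : (0 : ℤ) ≤ 1)).1 (hw i hi) with h | h
    · left; omega
    · right; omega
  have key2 : ∀ x y : ℤ, 0 ≤ x → 0 ≤ y → (x = y + 2 ∨ x = y - 2) → f x ≠ f y := by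
    rintro x y hx hy (rfl | rfl)
    · exact fun h => h2 y hy h.symm
    · intro h
      apply h2 (y - 2) hx
      rw [h]; congr 1; ring
  -- the ratio of the steps of the two halves is constant
  have ratio : (∀ i, i + 1 < l → w (l + i + 1) - w (l + i) = w (i + 1) - w i) ∨
      (∀ i, i + 1 < l → w (l + i + 1) - w (l + i) = -(w (i + 1) - w i)) := by
    by_cases hl2 : l = 1
    · left; intro i hi; omega
    have hs0 := step 0 (by omega)
    have hr0 := step l (by omega)
    have tr : ∀ σ : ℤ, (σ = 1 ∨ σ = -1) → w (l + 0 + 1) - w (l + 0) = σ * (w (0 + 1) - w 0) →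
        ∀ i, i + 1 < l → w (l + i + 1) - w (l + i) = σ * (w (i + 1) - w i) := by
      intro σ hσ hbase i
      induction i with
      | zero => intro _; exact hbase
      | succ i ih =>
        intro hi
        have ih' := ih (by omega)
        have e1 := hrep i (by omega)
        have e2 := hrep (i + 2) (by omega)
        have s1 := step i (by omega)
        have s2 := step (i + 1) (by omega)
        have r1 := step (l + i) (by omega)
        have r2 := step (l + i + 1) (by omega)
        have a1 : l + (i + 1) = l + i + 1 := by ring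
        have a2 : l + (i + 1) + 1 = l + i + 1 + 1 := by ring
        have a3 : l + (i + 2) = l + i + 1 + 1 := by ring
        have a4 : i + 1 + 1 = i + 2 := by ring
        rw [a2, a1, a4]
        rw [a3] at e2
        rw [a4] at s2
        by_cases hx : w (i + 2) = w i
        · have : w (l + i + 1 + 1) = w (l + i) := by
            by_contra hne
            apply key2 (w (l + i + 1 + 1)) (w (l + i)) (hb _ (by omega)).1 (hb _ (by omega)).1
              (by omega)
            rw [← e2, ← e1, hx]
          rcases hσ with rfl | rfl <;> omega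
        · have : w (l + i + 1 + 1) ≠ w (l + i) := by
            intro heq
            apply key2 (w (i + 2)) (w i) (hb _ (by omega)).1 (hb _ (by omega)).1 (by omega)
            rw [e1, e2, heq]
          rcases hσ with rfl | rfl <;> omega
    simp only [add_zero, zero_add] at tr
    rcases hs0 with h | h <;> rcases hr0 with h' | h' <;> simp only [zero_add] at h
    · left; intro i hi; have := tr 1 (Or.inl rfl) (by omega) i hi; omega
    · right; intro i hi; have := tr (-1) (Or.inr rfl) (by omega) i hi; omega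
    · right; intro i hi; have := tr (-1) (Or.inr rfl) (by omega) i hi; omega
    · left; intro i hi; have := tr 1 (Or.inl rfl) (by omega) i hi; omega
  have hD0 := far _ _ (hb 0 (by omega)).1 (hrep 0 (by omega)) (hpos 0 (by omega))
  simp only [add_zero] at hD0
  rcases ratio with hr | hr
  · -- parallel case: a square
    have hconst : ∀ i, i < l → w (l + i) = w i + (w l - w 0) := by
      intro i
      induction i with
      | zero => intro _; simp
      | succ i ih =>
        intro hi
        have := ih (by omega)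
        have := hr i (by omega)
        have a1 : l + (i + 1) = l + i + 1 := by ring
        rw [a1]; omega
    obtain ⟨m, hm⟩ : ∃ m : ℕ, (m : ℤ) = w l - w 0 := ⟨(w l - w 0).toNat, by omega⟩
    have hatt : ∀ j : ℕ, j < m → ∃ i, i < l ∧ w i = w 0 + j := by
      intro j hj
      obtain ⟨i, hi, hwi⟩ := attained w l (fun i hi => (hw i (by omega)).le) (w 0 + j)
        (by omega) (by omega)
      refine ⟨i, ?_, hwi⟩
      rcases Nat.lt_or_ge i l with h | h
      · exact h
      · have : i = l := le_antisymm hi h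
        subst this
        omega
    have hend : w 0 + 2 * m ≤ n := by
      obtain ⟨i, hi, hwi⟩ := hatt (m - 1) (by omega)
      have h3 := hconst i hi
      have h4 := (hb (l + i) (by omega)).2
      have : ((m - 1 : ℕ) : ℤ) = m - 1 := by
        have : 1 ≤ m := by omega
        push_cast [this]; ring
      omega
    obtain ⟨j, hj, hne⟩ := hsq (w 0) m (by omega) (hb 0 (by omega)).1 hend
    obtain ⟨i, hi, hwi⟩ := hatt j hj
    apply hne
    rw [← hwi, hrep i hi, hconst i hi, hwi, ← hm]
    congr 1; ring
  · -- antiparallel case: the two halves meet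
    have hsum : ∀ i, i < l → w (l + i) + w i = w l + w 0 := by
      intro i
      induction i with
      | zero => intro _; simp
      | succ i ih =>
        intro hi
        have := ih (by omega)
        have := hr i (by omega)
        have a1 : l + (i + 1) = l + i + 1 := by ring
        rw [a1]; omega
    have h3 := hsum (l - 1) (by omega)
    have h4 := hpos (l - 1) (by omega)
    have h5 := step (l - 1) (by omega)
    have a1 : l - 1 + 1 = l := by omega
    rw [a1] at h5
    omega

/-- A colouring of `0, …, n-1` in which vertices at distance one or two have different colours and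
which has no square is walk-nonrepetitive. -/
theorem core (f : ℤ → ℕ) (n : ℤ) (h1 : ∀ x, 0 ≤ x → f x ≠ f (x + 1))
    (h2 : ∀ x, 0 ≤ x → f x ≠ f (x + 2))
    (hsq : ∀ (a : ℤ) (m : ℕ), 1 ≤ m → 0 ≤ a → a + 2 * m ≤ n →
      ∃ j : ℕ, j < m ∧ f (a + j) ≠ f (a + m + j))
    (l : ℕ) (hl : 1 ≤ l) (w : ℕ → ℤ) (hw : ∀ i, i + 1 < 2 * l → |w (i + 1) - w i| = 1)
    (hb : ∀ i, i < 2 * l → 0 ≤ w i ∧ w i < n)
    (hrep : ∀ i, i < l → f (w i) = f (w (l + i))) : ∀ i, i < l → w i = w (l + i) := by
  have step : ∀ i, i + 1 < 2 * l → w (i + 1) = w i + 1 ∨ w (i + 1) = w i - 1 := by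
    intro i hi
    rcases (abs_eq (by norm_num : (0 : ℤ) ≤ 1)).1 (hw i hi) with h | h
    · left; omega
    · right; omega
  have far : ∀ x y : ℤ, 0 ≤ x → f x = f y → x < y → x + 3 ≤ y := by
    intro x y hx0 hxy hlt
    by_contra hcon
    rcases (by omega : y = x + 1 ∨ y = x + 2) with rfl | rfl
    · exact h1 x hx0 hxy
    · exact h2 x hx0 hxy
  have far' : ∀ i, i < l → w i = w (l + i) ∨ w i + 3 ≤ w (l + i) ∨ w (l + i) + 3 ≤ w i := by
    intro i hi
    rcases lt_trichotomy (w i) (w (l + i)) with h | h | h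
    · exact Or.inr (Or.inl (far _ _ (hb _ (by omega)).1 (hrep i hi) h))
    · exact Or.inl h
    · exact Or.inr (Or.inr (far _ _ (hb _ (by omega)).1 (hrep i hi).symm h))
  have tr : ∀ i, i + 1 < l → ((w i = w (l + i) ↔ w (i + 1) = w (l + (i + 1))) ∧
      (w i + 3 ≤ w (l + i) ↔ w (i + 1) + 3 ≤ w (l + (i + 1)))) := by
    intro i hi
    have s1 := step i (by omega)
    have s2 := step (l + i) (by omega)
    have f1 := far' i (by omega)
    have f2 := far' (i + 1) hi
    have a1 : l + (i + 1) = l + i + 1 := by ring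
    rw [a1] at f2 ⊢
    constructor <;> constructor <;> intro h <;> omega
  rcases far' 0 (by omega) with h0 | h0 | h0
  · intro i
    induction i with
    | zero => intro _; exact h0
    | succ i ih => intro hi; exact (tr i hi).1.1 (ih (by omega))
  · exfalso
    refine core_pos f n h1 h2 hsq l hl w hw hb hrep ?_
    have : ∀ i, i < l → w i + 3 ≤ w (l + i) := by
      intro i
      induction i with
      | zero => intro _; exact h0
      | succ i ih => intro hi; exact (tr i hi).2.1 (ih (by omega))
    intro i hi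
    have := this i hi
    omega
  · exfalso
    have hall : ∀ i, i < l → w (l + i) + 3 ≤ w i := by
      intro i
      induction i with
      | zero => intro _; exact h0
      | succ i ih =>
        intro hi
        have := ih (by omega)
        have t := tr i hi
        rcases far' (i + 1) hi with h | h | h
        · exact absurd (t.1.2 h) (by omega)
        · exact absurd (t.2.2 h) (by omega)
        · exact h
    refine core_pos f n h1 h2 hsq l hl (fun i => w (2 * l - 1 - i)) ?_ ?_ ?_ ?_
    · intro i hi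
      have := hw (2 * l - 1 - (i + 1)) (by omega)
      have a1 : 2 * l - 1 - (i + 1) + 1 = 2 * l - 1 - i := by omega
      rw [a1] at this
      rw [abs_sub_comm]
      exact this
    · intro i hi
      exact hb _ (by omega)
    · intro i hi
      have := hrep (l - 1 - i) (by omega)
      have a1 : 2 * l - 1 - i = l + (l - 1 - i) := by omega
      have a2 : 2 * l - 1 - (l + i) = l - 1 - i := by omega
      simp only [a1, a2]
      exact this.symm
    · intro i hi
      have := hall (l - 1 - i) (by omega)
      have a1 : 2 * l - 1 - i = l + (l - 1 - i) := by omega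
      have a2 : 2 * l - 1 - (l + i) = l - 1 - i := by omega
      simp only [a1, a2]
      omega

/-! ### The Thue-Morse word and a square-free word without palindromes -/

/-- the Thue-Morse word -/
def tm (n : ℕ) : Bool :=
  if h : n = 0 then false else if n % 2 = 1 then !(tm (n / 2)) else tm (n / 2)
termination_by n
decreasing_by all_goals omega

theorem tm_even (n : ℕ) : tm (2 * n) = tm n := by
  by_cases h : n = 0
  · subst h; rfl
  · conv_lhs => rw [tm]
    have h1 : ¬ (2 * n = 0) := by omega
    have h2 : ¬ ((2 * n) % 2 = 1) := by omega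
    rw [dif_neg h1, if_neg h2]
    congr 1; omega

theorem tm_odd (n : ℕ) : tm (2 * n + 1) = !(tm n) := by
  conv_lhs => rw [tm]
  have h1 : ¬ (2 * n + 1 = 0) := by omega
  have h2 : (2 * n + 1) % 2 = 1 := by omega
  rw [dif_neg h1, if_pos h2]
  congr 2; omega

theorem tm_overlap_free (p : ℕ) : ∀ i : ℕ, 1 ≤ p → ¬ ∀ k, k ≤ p → tm (i + k) = tm (i + p + k) := by
  induction p using Nat.strong_induction_on with
  | _ p ih =>
    intro i hp h
    have hpair : ∀ j, tm (2 * j) ≠ tm (2 * j + 1) := by
      intro j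
      rw [tm_even, tm_odd]
      cases tm j <;> simp
    rcases Nat.even_or_odd' p with ⟨p', rfl | rfl⟩
    · rcases Nat.even_or_odd' i with ⟨i', rfl | rfl⟩
      · apply ih p' (by omega) i' (by omega)
        intro k hk
        have := h (2 * k) (by omega)
        have a1 : 2 * i' + 2 * k = 2 * (i' + k) := by ring
        have a2 : 2 * i' + 2 * p' + 2 * k = 2 * (i' + p' + k) := by ring
        rw [a1, a2, tm_even, tm_even] at this
        exact this
      · apply ih p' (by omega) i' (by omega)
        intro k hk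
        have := h (2 * k) (by omega)
        have a1 : 2 * i' + 1 + 2 * k = 2 * (i' + k) + 1 := by ring
        have a2 : 2 * i' + 1 + 2 * p' + 2 * k = 2 * (i' + p' + k) + 1 := by ring
        rw [a1, a2, tm_odd, tm_odd] at this
        cases h1 : tm (i' + k) <;> cases h2 : tm (i' + p' + k) <;> simp_all
    · -- odd period: the word alternates on the first period
      have alt : ∀ k, k < 2 * p' + 1 → tm (i + k) ≠ tm (i + k + 1) := by
        intro k hk
        rcases Nat.even_or_odd' (i + k) with ⟨j, hj | hj⟩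
        · rw [hj]; exact hpair j
        · have e1 := h k (by omega)
          have e2 := h (k + 1) (by omega)
          have a1 : i + (2 * p' + 1) + k = 2 * (j + p' + 1) := by omega
          have a2 : i + (2 * p' + 1) + (k + 1) = 2 * (j + p' + 1) + 1 := by omega
          have a3 : i + (k + 1) = i + k + 1 := by ring
          rw [a1] at e1
          rw [a2, a3] at e2
          rw [e1, e2]
          exact hpair _
      have alt' : ∀ k, k ≤ 2 * p' + 1 → tm (i + k) = (xor (tm i) (decide (k % 2 = 1))) := by
        intro k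
        induction k with
        | zero => intro _; simp
        | succ k ihk =>
          intro hk
          have e1 := ihk (by omega)
          have e2 := alt k (by omega)
          have a3 : i + (k + 1) = i + k + 1 := by ring
          rw [a3]
          rcases Nat.even_or_odd' k with ⟨j, rfl | rfl⟩
          · have c1 : ¬ ((2 * j) % 2 = 1) := by omega
            have c2 : (2 * j + 1) % 2 = 1 := by omega
            simp only [c1, c2, decide_false, decide_true, Bool.xor_false, Bool.xor_true] at e1 ⊢
            rw [e1] at e2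
            cases h1 : tm i <;> cases h2 : tm (i + 2 * j + 1) <;> simp_all
          · have c1 : (2 * j + 1) % 2 = 1 := by omega
            have c2 : ¬ ((2 * j + 1 + 1) % 2 = 1) := by omega
            simp only [c1, c2, decide_false, decide_true, Bool.xor_false, Bool.xor_true] at e1 ⊢
            rw [e1] at e2
            cases h1 : tm i <;> cases h2 : tm (i + (2 * j + 1) + 1) <;> simp_all
      have e1 := alt' (2 * p' + 1) le_rfl
      have e2 := h 0 (by omega)
      have c1 : (2 * p' + 1) % 2 = 1 := by omega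
      simp only [c1, decide_true, Bool.xor_true] at e1
      simp only [add_zero] at e2
      rw [e2] at e1
      exact absurd e1.symm (Bool.not_ne_self _)

/-- values of the Thue-Morse word as naturals -/
def tv (n : ℕ) : ℕ := if tm n then 1 else 0

theorem tv_lt (n : ℕ) : tv n < 2 := by unfold tv; split_ifs <;> omega

/-- the ternary square-free word `1 + t(n+1) - t(n)` -/
def vw (n : ℕ) : ℕ := 1 + tv (n + 1) - tv n

theorem vw_lt (n : ℕ) : vw n < 3 := by
  have := tv_lt n; have := tv_lt (n + 1); unfold vw; omega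

theorem vw_square_free (i p : ℕ) (hp : 1 ≤ p) : ∃ k, k < p ∧ vw (i + k) ≠ vw (i + p + k) := by
  by_contra hcon
  push Not at hcon
  have hsum : ∀ k, k ≤ p → (tv (i + k) : ℤ) - tv i = tv (i + p + k) - tv (i + p) := by
    intro k
    induction k with
    | zero => intro _; simp
    | succ k ih =>
      intro hk
      have e1 := ih (by omega)
      have e2 := hcon k (by omega)
      unfold vw at e2
      have := tv_lt (i + k)
      have := tv_lt (i + k + 1)
      have := tv_lt (i + p + k)
      have := tv_lt (i + p + k + 1)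
      have a1 : i + (k + 1) = i + k + 1 := by ring
      have a2 : i + p + (k + 1) = i + p + k + 1 := by ring
      rw [a1, a2]
      omega
  have h1 := hsum p le_rfl
  have := tv_lt i
  have := tv_lt (i + p)
  have := tv_lt (i + p + p)
  have heq : tv i = tv (i + p) := by omega
  apply tm_overlap_free p i hp
  intro k hk
  have h2 := hsum k hk
  have h3 : tv (i + k) = tv (i + p + k) := by omega
  unfold tv at h3
  cases h4 : tm (i + k) <;> cases h5 : tm (i + p + k) <;> simp_all

/-- the word on four letters: `3` at every third place, the ternary word elsewhere -/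
def cw (n : ℕ) : ℕ := if n % 3 = 2 then 3 else vw (2 * (n / 3) + n % 3)

theorem cw_lt (n : ℕ) : cw n < 4 := by
  unfold cw; split_ifs
  · omega
  · have := vw_lt (2 * (n / 3) + n % 3); omega

theorem vw_succ (n : ℕ) : vw n ≠ vw (n + 1) := by
  obtain ⟨k, hk, h⟩ := vw_square_free n 1 le_rfl
  have : k = 0 := by omega
  subst this
  simpa using h

theorem cw_succ (n : ℕ) : cw n ≠ cw (n + 1) := by
  unfold cw
  have := vw_lt (2 * (n / 3) + n % 3)
  have := vw_lt (2 * ((n + 1) / 3) + (n + 1) % 3)
  rcases (by omega : n % 3 = 0 ∨ n % 3 = 1 ∨ n % 3 = 2) with h | h | h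
  · rw [if_neg (by omega), if_neg (by omega)]
    have a : 2 * ((n + 1) / 3) + (n + 1) % 3 = 2 * (n / 3) + n % 3 + 1 := by omega
    rw [a]
    exact vw_succ _
  · rw [if_neg (by omega), if_pos (by omega)]; omega
  · rw [if_pos (by omega), if_neg (by omega)]; omega

theorem cw_succ2 (n : ℕ) : cw n ≠ cw (n + 2) := by
  unfold cw
  have := vw_lt (2 * (n / 3) + n % 3)
  have := vw_lt (2 * ((n + 2) / 3) + (n + 2) % 3)
  rcases (by omega : n % 3 = 0 ∨ n % 3 = 1 ∨ n % 3 = 2) with h | h | h
  · rw [if_neg (by omega), if_pos (by omega)]; omega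
  · rw [if_neg (by omega), if_neg (by omega)]
    have a : 2 * ((n + 2) / 3) + (n + 2) % 3 = 2 * (n / 3) + n % 3 + 1 := by omega
    rw [a]
    exact vw_succ _
  · rw [if_pos (by omega), if_neg (by omega)]; omega

theorem cw_square_free (a m : ℕ) (hm : 1 ≤ m) : ∃ j, j < m ∧ cw (a + j) ≠ cw (a + m + j) := by
  by_contra hcon
  push Not at hcon
  rcases (by omega : m = 1 ∨ m = 2 ∨ 3 ≤ m) with rfl | rfl | hm3
  · exact cw_succ a (by simpa using hcon 0 (by omega))
  · exact cw_succ2 a (by simpa using hcon 0 (by omega))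
  -- the period is a multiple of three
  have hmod : m % 3 = 0 := by
    obtain ⟨j, hj, hj3⟩ : ∃ j, j < 3 ∧ (a + j) % 3 = 2 := by
      rcases (by omega : a % 3 = 0 ∨ a % 3 = 1 ∨ a % 3 = 2) with h | h | h
      · exact ⟨2, by omega, by omega⟩
      · exact ⟨1, by omega, by omega⟩
      · exact ⟨0, by omega, by omega⟩
    have h := hcon j (by omega)
    unfold cw at h
    rw [if_pos hj3] at h
    by_contra hne
    rw [if_neg (by omega)] at h
    have := vw_lt (2 * ((a + m + j) / 3) + (a + m + j) % 3)
    omega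
  obtain ⟨q, rfl⟩ : ∃ q, m = 3 * q := ⟨m / 3, by omega⟩
  -- the first position of the ternary word
  set s := 2 * (a / 3) + (if a % 3 = 2 then 2 else a % 3) with hs
  obtain ⟨k, hk, hne⟩ := vw_square_free s (2 * q) (by omega)
  apply hne
  -- the place of the letter `s + k`
  set t := 3 * ((s + k) / 2) + (s + k) % 2 with ht
  have hta : a ≤ t ∧ t < a + 3 * q := by
    rcases (by omega : a % 3 = 0 ∨ a % 3 = 1 ∨ a % 3 = 2) with h | h | h
    · rw [if_neg (by omega)] at hs; omega
    · rw [if_neg (by omega)] at hs; omega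
    · rw [if_pos h] at hs; omega
  have h := hcon (t - a) (by omega)
  have a1 : a + (t - a) = t := by omega
  have a2 : a + 3 * q + (t - a) = t + 3 * q := by omega
  rw [a1, a2] at h
  unfold cw at h
  rw [if_neg (by omega), if_neg (by omega)] at h
  have a3 : 2 * (t / 3) + t % 3 = s + k := by omega
  have a4 : 2 * ((t + 3 * q) / 3) + (t + 3 * q) % 3 = s + 2 * q + k := by omega
  rw [a3, a4] at h
  exact h

/-! ### Upper bounds -/

/-- a `1`-tuple colouring from an integer valued colouring -/
theorem tuple_of_core (n q : ℕ) (g : ℕ → ℕ) (hq : ∀ x, g x < q)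
    (h1 : ∀ x, g x ≠ g (x + 1)) (h2 : ∀ x, g x ≠ g (x + 2))
    (hsq : ∀ a m : ℕ, 1 ≤ m → a + 2 * m ≤ n → ∃ j : ℕ, j < m ∧ g (a + j) ≠ g (a + m + j)) :
    IsTupleColouring (SimpleGraph.pathGraph n) 1 q
      (fun v => {(⟨g v, hq _⟩ : Fin q)}) := by
  refine ⟨fun v => Finset.card_singleton _, ?_⟩
  set f : ℤ → ℕ := fun x => g x.toNat with hf
  intro l hl w hw hnb a ha
  by_contra hcon
  push Not at hcon
  obtain ⟨i₀, j₀, hij, hne⟩ := hnb
  apply hne
  have hval : ∀ i, ((a i : Fin q) : ℕ) = f (((w i : Fin n) : ℕ) : ℤ) := by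
    intro i
    have := Finset.mem_singleton.1 (ha i)
    rw [this]
    simp [hf]
  set W : ℕ → ℤ := fun i => if h : i < 2 * l then (((w ⟨i, h⟩ : Fin n) : ℕ) : ℤ) else 0 with hW
  have hWv : ∀ i (h : i < 2 * l), W i = (((w ⟨i, h⟩ : Fin n) : ℕ) : ℤ) := by
    intro i h
    simp only [hW, dif_pos h]
  have := core f n ?_ ?_ ?_ l hl W ?_ ?_ ?_ i₀ (by omega)
  · rw [hWv _ i₀.2, hWv _ (by omega : l + (i₀ : ℕ) < 2 * l)] at this
    have e : (⟨l + (i₀ : ℕ), by omega⟩ : Fin (2 * l)) = j₀ := by
      apply Fin.ext; simp only; omega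
    rw [e] at this
    apply Fin.ext
    exact_mod_cast this
  · intro x hx
    have := h1 x.toNat
    have e : (x + 1).toNat = x.toNat + 1 := by omega
    simp only [hf, e]
    exact this
  · intro x hx
    have := h2 x.toNat
    have e : (x + 2).toNat = x.toNat + 2 := by omega
    simp only [hf, e]
    exact this
  · intro x m hm hx hxm
    obtain ⟨j, hj, hne'⟩ := hsq x.toNat m hm (by omega)
    refine ⟨j, hj, ?_⟩
    have e1 : (x + j).toNat = x.toNat + j := by omega
    have e2 : (x + m + j).toNat = x.toNat + m + j := by omega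
    simp only [hf, e1, e2]
    exact hne'
  · intro i hi
    rw [hWv _ hi, hWv _ (by omega : i < 2 * l)]
    have := hw ⟨i, by omega⟩ ⟨i + 1, hi⟩ rfl
    rw [SimpleGraph.pathGraph_adj] at this
    rcases this with h | h
    · rw [← h]; push_cast; simp
    · rw [← h]; push_cast; simp
  · intro i hi
    rw [hWv _ hi]
    have := (w ⟨i, hi⟩).2
    constructor
    · positivity
    · exact_mod_cast this
  · intro i hi
    rw [hWv _ (by omega : i < 2 * l), hWv _ (by omega : l + i < 2 * l), ← hval, ← hval]
    have := hcon ⟨i, by omega⟩ ⟨l + i, by omega⟩ (by simp only; omega)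
    rw [this]

theorem upper_four (n : ℕ) : ∃ c : Fin n → Finset (Fin 4),
    IsTupleColouring (SimpleGraph.pathGraph n) 1 4 c :=
  ⟨_, tuple_of_core n 4 cw cw_lt cw_succ cw_succ2 fun a m hm _ => cw_square_free a m hm⟩

theorem upper_three (n : ℕ) (hn : n ≤ 5) : ∃ c : Fin n → Finset (Fin 3),
    IsTupleColouring (SimpleGraph.pathGraph n) 1 3 c := by
  refine ⟨_, tuple_of_core n 3 (fun x => x % 3) (fun x => by omega) (fun x => by omega)
    (fun x => by omega) fun a m hm h => ⟨0, by omega, by omega⟩⟩

/-! ### Lower bounds -/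

variable {V : Type} {G : SimpleGraph V} {p q : ℕ} {c : V → Finset (Fin q)}

theorem disjoint_adj (h : IsTupleColouring G p q c) {u v : V} (huv : G.Adj u v) :
    Disjoint (c u) (c v) := by
  rw [Finset.disjoint_left]
  intro x hx hy
  have h1 : ∀ i j : Fin (2 * 1), (i : ℕ) + 1 = j →
      G.Adj (if (i : ℕ) = 0 then u else v) (if (j : ℕ) = 0 then u else v) := by
    intro i j hij
    have h1 : (i : ℕ) = 0 := by omega
    have h2 : ¬ (j : ℕ) = 0 := by omega
    rw [if_pos h1, if_neg h2]
    exact huv
  have h2 : ∃ i j : Fin (2 * 1), (i : ℕ) + 1 = j ∧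
      (if (i : ℕ) = 0 then u else v) ≠ (if (j : ℕ) = 0 then u else v) := by
    refine ⟨⟨0, by norm_num⟩, ⟨1, by norm_num⟩, rfl, ?_⟩
    simpa using huv.ne
  have h3 : ∀ i : Fin (2 * 1), x ∈ c (if (i : ℕ) = 0 then u else v) := by
    intro i
    by_cases hi : (i : ℕ) = 0
    · rw [if_pos hi]; exact hx
    · rw [if_neg hi]; exact hy
  obtain ⟨i, j, -, hne⟩ := h.2 1 le_rfl (fun i => if (i : ℕ) = 0 then u else v) h1 h2
    (fun _ => x) h3
  exact hne rfl

theorem disjoint_two (h : IsTupleColouring G p q c) (hp : 1 ≤ p) {u v w : V} (huv : G.Adj u v)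
    (hvw : G.Adj v w) (huw : u ≠ w) : Disjoint (c u) (c w) := by
  rw [Finset.disjoint_left]
  intro x hx hy
  obtain ⟨y, hyv⟩ : (c v).Nonempty := by
    rw [← Finset.card_pos, h.1]; omega
  set W : Fin (2 * 2) → V := fun i => if (i : ℕ) = 0 then u else if (i : ℕ) = 2 then w else v
    with hW
  set a : Fin (2 * 2) → Fin q := fun i => if (i : ℕ) % 2 = 0 then x else y with ha
  have h1 : ∀ i j : Fin (2 * 2), (i : ℕ) + 1 = j → G.Adj (W i) (W j) := by
    rintro ⟨i, hi⟩ ⟨j, hj⟩ hij
    simp only at hij
    subst hij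
    have : i < 3 := by omega
    simp only [hW]
    interval_cases i
    · simpa using huv
    · simpa using hvw
    · simpa using hvw.symm
  have h2 : ∃ i j : Fin (2 * 2), (i : ℕ) + 2 = j ∧ W i ≠ W j := by
    refine ⟨⟨0, by norm_num⟩, ⟨2, by norm_num⟩, rfl, ?_⟩
    simpa [hW] using huw
  have h3 : ∀ i : Fin (2 * 2), a i ∈ c (W i) := by
    rintro ⟨i, hi⟩
    have : i < 4 := by omega
    simp only [hW, ha]
    interval_cases i
    · simpa using hx
    · simpa using hyv
    · simpa using hy
    · simpa using hyv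
  obtain ⟨i, j, hij, hne⟩ := h.2 2 (by norm_num) W h1 h2 a h3
  apply hne
  have : (i : ℕ) % 2 = (j : ℕ) % 2 := by omega
  simp only [ha, this]

theorem three_le {n : ℕ} (hn : 3 ≤ n) (hp : 1 ≤ p) {c : Fin n → Finset (Fin q)}
    (h : IsTupleColouring (SimpleGraph.pathGraph n) p q c) : 3 * p ≤ q := by
  have a01 : (SimpleGraph.pathGraph n).Adj ⟨0, by omega⟩ ⟨1, by omega⟩ := by
    rw [SimpleGraph.pathGraph_adj]; simp
  have a12 : (SimpleGraph.pathGraph n).Adj ⟨1, by omega⟩ ⟨2, by omega⟩ := by
    rw [SimpleGraph.pathGraph_adj]; simp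
  have d01 := disjoint_adj h a01
  have d12 := disjoint_adj h a12
  have d02 := disjoint_two h hp a01 a12 (by simp)
  have hc : (c ⟨0, by omega⟩ ∪ c ⟨1, by omega⟩ ∪ c ⟨2, by omega⟩).card = 3 * p := by
    rw [Finset.card_union_of_disjoint (Finset.disjoint_union_left.2 ⟨d02, d12⟩),
      Finset.card_union_of_disjoint d01, h.1, h.1, h.1]
    ring
  rw [← hc]
  exact (Finset.card_le_univ _).trans (by simp)

theorem four_le {n : ℕ} (hn : 6 ≤ n) (hp : 1 ≤ p) {c : Fin n → Finset (Fin q)}
    (h : IsTupleColouring (SimpleGraph.pathGraph n) p q c) : 4 * p ≤ q := by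
  have adj : ∀ i (hi : i + 1 < n),
      (SimpleGraph.pathGraph n).Adj ⟨i, by omega⟩ ⟨i + 1, hi⟩ := by
    intro i hi
    rw [SimpleGraph.pathGraph_adj]; simp
  -- one of the pairs at distance three is disjoint
  obtain ⟨i, hi, hd⟩ : ∃ i, ∃ hi : i < 3,
      Disjoint (c ⟨i, by omega⟩) (c ⟨i + 3, by omega⟩) := by
    by_contra hcon
    push Not at hcon
    have ex : ∀ i (hi : i < 3), ∃ x, x ∈ c ⟨i, by omega⟩ ∧ x ∈ c ⟨i + 3, by omega⟩ := by
      intro i hi
      obtain ⟨x, hx⟩ := Finset.not_disjoint_iff.1 (hcon i hi)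
      exact ⟨x, hx⟩
    choose x hx hx' using ex
    have h1 : ∀ i j : Fin (2 * 3), (i : ℕ) + 1 = j →
        (SimpleGraph.pathGraph n).Adj ⟨i, by omega⟩ ⟨j, by omega⟩ := by
      intro i j hij
      rw [SimpleGraph.pathGraph_adj]
      left; exact hij
    have h2 : ∃ i j : Fin (2 * 3), (i : ℕ) + 3 = j ∧
        (⟨i, by omega⟩ : Fin n) ≠ ⟨j, by omega⟩ := by
      refine ⟨⟨0, by norm_num⟩, ⟨3, by norm_num⟩, rfl, ?_⟩
      simp
    have h3 : ∀ i : Fin (2 * 3),
        x ((i : ℕ) % 3) (Nat.mod_lt _ (by norm_num)) ∈ c ⟨i, by omega⟩ := by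
      intro i
      rcases (by omega : (i : ℕ) < 3 ∨ 3 ≤ (i : ℕ)) with h1 | h1
      · have h2 := hx ((i : ℕ) % 3) (Nat.mod_lt _ (by norm_num))
        have h3 : (⟨(i : ℕ) % 3, by omega⟩ : Fin n) = ⟨i, by omega⟩ :=
          Fin.ext (Nat.mod_eq_of_lt h1)
        rw [h3] at h2
        exact h2
      · have h2 := hx' ((i : ℕ) % 3) (Nat.mod_lt _ (by norm_num))
        have h3 : (⟨(i : ℕ) % 3 + 3, by omega⟩ : Fin n) = ⟨i, by omega⟩ :=
          Fin.ext (by simp only; omega)
        rw [h3] at h2
        exact h2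
    obtain ⟨i, j, hij, hne⟩ := h.2 3 (by norm_num) (fun i => ⟨i, by omega⟩) h1 h2
      (fun i => x ((i : ℕ) % 3) (Nat.mod_lt _ (by norm_num))) h3
    apply hne
    have : (i : ℕ) % 3 = (j : ℕ) % 3 := by omega
    simp only [this]
  have d01 := disjoint_adj h (adj i (by omega))
  have d12 := disjoint_adj h (adj (i + 1) (by omega))
  have d23 := disjoint_adj h (adj (i + 2) (by omega))
  have d02 := disjoint_two h hp (adj i (by omega)) (adj (i + 1) (by omega))
    (by rw [Ne, Fin.mk.injEq]; omega)
  have d13 := disjoint_two h hp (adj (i + 1) (by omega)) (adj (i + 2) (by omega))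
    (by rw [Ne, Fin.mk.injEq]; omega)
  have hc : (c ⟨i, by omega⟩ ∪ c ⟨i + 1, by omega⟩ ∪ c ⟨i + 2, by omega⟩ ∪
      c ⟨i + 3, by omega⟩).card = 4 * p := by
    rw [Finset.card_union_of_disjoint, Finset.card_union_of_disjoint,
      Finset.card_union_of_disjoint, h.1, h.1, h.1, h.1]
    · ring
    · exact d01
    · exact Finset.disjoint_union_left.2 ⟨d02, d12⟩
    · exact Finset.disjoint_union_left.2 ⟨Finset.disjoint_union_left.2 ⟨hd, d13⟩, d23⟩
  rw [← hc]
  exact (Finset.card_le_univ _).trans (by simp)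

/-- the value of the infimum from a lower bound on all tuples and one colouring -/
theorem value {n k : ℕ} (hk : 2 ≤ k)
    (hlow : ∀ (p q : ℕ) (c : Fin n → Finset (Fin q)), 1 ≤ p →
      IsTupleColouring (SimpleGraph.pathGraph n) p q c → k * p ≤ q)
    (hup : ∃ c : Fin n → Finset (Fin k), IsTupleColouring (SimpleGraph.pathGraph n) 1 k c) :
    piFW (SimpleGraph.pathGraph n) = k := by
  apply le_antisymm
  · apply csInf_le
    · refine ⟨0, ?_⟩
      rintro x ⟨p, q, hp, hpq, rfl, -⟩
      positivity
    · exact ⟨1, k, le_rfl, by omega, by simp, hup⟩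
  · apply le_csInf
    · exact ⟨_, 1, k, le_rfl, by omega, rfl, hup⟩
    · rintro x ⟨p, q, hp, hpq, rfl, c, hc⟩
      rw [le_div_iff₀ (by exact_mod_cast hp)]
      exact_mod_cast hlow p q c hp hc

/-- The fractional walk-nonrepetitive chromatic number of the path `P_n` (`n ≥ 3` vertices) is `3`
for `n ≤ 5` and `4` for `n ≥ 6`. In particular it is `3` for the path with exactly four edges and
`4` for every path with at least five edges. -/
theorem result (n : ℕ) (hn : 3 ≤ n) :
    piFW (SimpleGraph.pathGraph n) = if n ≤ 5 then 3 else 4 := by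
  split_ifs with h5
  · exact_mod_cast value (k := 3) (by norm_num) (fun p q c hp hc => three_le hn hp hc)
      (upper_three n h5)
  · exact_mod_cast value (k := 4) (by norm_num) (fun p q c hp hc => four_le (by omega) hp hc)
      (upper_four n)

end Pool.Agent.Results.MP_c566a2_co.WalkPath
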